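import Pool.Agent.J6H42.NC.Var

/-!
# First-passage percolation with positive bounded weights: the variance is at most linear
-/

set_option autoImplicit false
set_option linter.unusedVariables false

open MeasureTheory ProbabilityTheory Filter Topology
open scoped ENNReal

namespace Pool.Agent.J6H42.NC

open Pool.Agent.J6H99.NC

variable {e : ℕ}

/-- the parameters `q'` have larger weights -/
structure Dom (q q' : Par) : Prop where
  w : ∀ t, q.w t ≤ q'.w t
  b : q'.b = q.b
  a : 0 < q'.a

lemma cost_dom {q q' : Par} (h : ∀ t, q.w t ≤ q'.w t) (ω : Om e) {x y : V e}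
    (p : (lat e).Walk x y) : cost q ω p ≤ cost q' ω p :=
  List.sum_le_sum fun s _ => h _

open Classical in
/-- the sum of the squares of the positive increments -/
lemma sum_incr {q q' : Par} (hq : Dom q q') {c : ℝ} (hc : 0 < c) (ω τ : Om e) (x : V e) {L : ℤ}
    (hL : q'.b * n1 x + q'.a ≤ q'.a * L) (S : Finset (Sym2 (V e)))
    (hS : ∀ s, s ∈ EIn {v : V e | n1 v ≤ L} → s ∈ S) :
    ∑ s ∈ S, (max 0 (T q' (Function.update ω s (τ s)) 0 x - T q' ω 0 x)) ^ 2 ≤
      q'.b ^ 2 * (NN q c S ω + q'.b * n1 x / c) := by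
  have ha := hq.a
  have key : ∀ δ : ℝ, 0 < δ →
      ∑ s ∈ S, (max 0 (T q' (Function.update ω s (τ s)) 0 x - T q' ω 0 x)) ^ 2 ≤
        S.card * (δ ^ 2 + 2 * δ * q'.b) + q'.b ^ 2 * (NN q c S ω + (q'.b * n1 x + δ) / c) := by
    intro δ hδ
    obtain ⟨p, hpath, hc'⟩ := exists_near_path q' ω 0 x (lt_min hδ ha)
    have hp : p.edges.Nodup := hpath.isTrail.edges_nodup
    have huse := near_in_ball q' ha x hL p hc'
    have huS : Uses p (S : Set (Sym2 (V e))) := fun s hs => hS s (huse s hs)
    have hcδ : cost q' ω p < T q' ω 0 x + δ := lt_of_lt_of_le hc' (by linarith [min_le_left δ q'.a])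
    have h1 : ∀ s ∈ S, (max 0 (T q' (Function.update ω s (τ s)) 0 x - T q' ω 0 x)) ^ 2 ≤
        (δ ^ 2 + 2 * δ * q'.b) + q'.b ^ 2 * (if s ∈ p.edges then 1 else 0) := by
      intro s _
      have h2 : max 0 (T q' (Function.update ω s (τ s)) 0 x - T q' ω 0 x) ≤
          δ + q'.b * (if s ∈ p.edges then 1 else 0) := by
        have hb := q'.hb
        refine max_le ?_ ?_
        · split_ifs <;> simp <;> linarith
        · have h3 := (T_le q' (Function.update ω s (τ s)) p).trans (cost_update q' ω s (τ s) p hp)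
          linarith
      have h4 := pow_le_pow_left₀ (le_max_left 0 _) h2 2
      refine h4.trans ?_
      have hb := q'.hb
      split_ifs
      · nlinarith
      · nlinarith [mul_pos hδ hb]
    refine (Finset.sum_le_sum h1).trans ?_
    rw [Finset.sum_add_distrib, Finset.sum_const, nsmul_eq_mul, ← Finset.mul_sum]
    refine add_le_add le_rfl (mul_le_mul_of_nonneg_left ?_ (sq_nonneg _))
    have h5 : ∑ s ∈ S, (if s ∈ p.edges then (1 : ℝ) else 0) ≤ p.length := by
      rw [← Finset.sum_filter, Finset.sum_const, nsmul_eq_mul, mul_one]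
      have h6 : (S.filter fun s => s ∈ p.edges) ⊆ p.edges.toFinset := by
        intro s hs
        rw [Finset.mem_filter] at hs
        exact List.mem_toFinset.2 hs.2
      have h7 := (Finset.card_le_card h6).trans (List.toFinset_card_le p.edges)
      rw [SimpleGraph.Walk.length_edges] at h7
      exact_mod_cast h7
    refine h5.trans ?_
    have h8 : p.length ≤ S.card := by
      rw [← SimpleGraph.Walk.length_edges, ← List.toFinset_card_of_nodup hp]
      exact Finset.card_le_card fun s hs => huS s (List.mem_toFinset.1 hs)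
    have h9 := T_le_b0 q' ω x
    have hb := q'.hb
    have h0 : 0 ≤ q'.b * (n1 x : ℝ) := mul_nonneg hb.le (by exact_mod_cast n1_nonneg x)
    rcases le_or_gt (cost q ω p) (c * p.length) with hcase | hcase
    · have := le_NN q c S (ω := ω) (m := p.length) ⟨x, p, hpath, rfl, huS, hcase⟩ h8
      have h10 : 0 ≤ (q'.b * n1 x + δ) / c := by positivity
      linarith
    · have h10 := cost_dom hq.w ω p
      have h11 : (p.length : ℝ) ≤ (q'.b * n1 x + δ) / c := by
        rw [le_div_iff₀ hc]
        linarith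
      have := NN_nonneg q c S ω
      linarith
  have lim : Tendsto (fun δ : ℝ => S.card * (δ ^ 2 + 2 * δ * q'.b) +
      q'.b ^ 2 * (NN q c S ω + (q'.b * n1 x + δ) / c)) (𝓝[>] 0)
      (𝓝 (S.card * (0 ^ 2 + 2 * 0 * q'.b) + q'.b ^ 2 * (NN q c S ω + (q'.b * n1 x + 0) / c))) := by
    refine Tendsto.mono_left ?_ nhdsWithin_le_nhds
    refine Continuous.tendsto' ?_ _ _ rfl
    fun_prop
  have h := ge_of_tendsto lim (eventually_nhdsWithin_of_forall fun δ hδ => key δ hδ)
  refine h.trans (le_of_eq ?_)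
  ring

open Classical in
/-- extension by zero of a configuration on `S` -/
noncomputable def ext (S : Finset (Sym2 (V e))) (y : S → ℝ) : Om e :=
  fun s => if h : s ∈ S then y ⟨s, h⟩ else 0

lemma measurable_ext (S : Finset (Sym2 (V e))) : Measurable (ext S) := by
  refine measurable_pi_iff.2 fun s => ?_
  unfold ext
  split_ifs with h
  · exact measurable_pi_apply _
  · exact measurable_const

open Classical in
lemma ext_update (S : Finset (Sym2 (V e))) (y : S → ℝ) (j : S) (t : ℝ) :
    ext S (Function.update y j t) = Function.update (ext S y) j t := by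
  funext s
  by_cases hs : s = j
  · subst hs
    simp [ext]
  · rw [Function.update_of_ne hs]
    unfold ext
    split_ifs with h
    · rw [Function.update_of_ne]
      intro h'
      exact hs (congrArg Subtype.val h')
    · rfl

lemma ext_restrict (S : Finset (Sym2 (V e))) (ω : Om e) {s : Sym2 (V e)} (hs : s ∈ S) :
    ω s = ext S (S.restrict ω) s := by
  unfold ext
  rw [dif_pos hs]
  rfl

open Classical in
/-- the variance bound for the larger weights -/
theorem var_dom {q q' : Par} (hq : Dom q q') (F : Measure ℝ) [IsProbabilityMeasure F] {c : ℝ}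
    (hc : 0 < c) (hP : ∀ m : ℕ, PM e F (Cheap e q c m) ≤ ENNReal.ofReal ((1 / 2) ^ m)) (x : V e) :
    ∫ ω, T q' ω 0 x ^ 2 ∂(PM e F) - (∫ ω, T q' ω 0 x ∂(PM e F)) ^ 2 ≤
      q.b ^ 2 * (2 + q.b * n1 x / c) := by
  have hb := q'.hb
  have ha := hq.a
  -- the finite set of edges
  obtain ⟨L, hL⟩ : ∃ L : ℤ, q'.b * n1 x + q'.a ≤ q'.a * L := by
    obtain ⟨n, hn⟩ := exists_nat_ge ((q'.b * n1 x + q'.a) / q'.a)
    refine ⟨n, ?_⟩
    rw [div_le_iff₀ ha] at hn
    push_cast
    linarith
  set S : Finset (Sym2 (V e)) := (edges_finite (e := e) L).toFinset with hS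
  have hSm : ∀ s, s ∈ EIn {v : V e | n1 v ≤ L} → s ∈ S := fun s hs =>
    (Set.Finite.mem_toFinset _).2 hs
  have hST : ∀ ω : Om e, T q' ω 0 x = T q' (ext S (S.restrict ω)) 0 x := by
    intro ω
    have h1 : ∀ s ∈ EIn {v : V e | n1 v ≤ L}, ω s = ext S (S.restrict ω) s := by
      intro s hs
      exact ext_restrict S ω (hSm s hs)
    exact le_antisymm (T_congr q' ha x hL fun s hs => (h1 s hs).symm) (T_congr q' ha x hL h1)
  set G : (S → ℝ) → ℝ := fun y => T q' (ext S y) 0 x with hG
  have hGm : Measurable G := (measurable_T q' 0 x).comp (measurable_ext S)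
  have hn0 : (0 : ℝ) ≤ n1 x := by exact_mod_cast n1_nonneg x
  have hTb : ∀ ω : Om e, |T q' ω 0 x| ≤ q'.b * n1 x := by
    intro ω
    rw [abs_of_nonneg (T_nonneg q' ω 0 x)]
    exact T_le_b0 q' ω x
  set D : (S → ℝ) → ℝ := fun y => q'.b ^ 2 * (NN q c S (ext S y) + q'.b * n1 x / c) with hD
  have hDm : Measurable D :=
    (((NN_meas q c S).comp (measurable_ext S)).add_const _).const_mul _
  have i1 : ∫ ω, T q' ω 0 x ∂(PM e F) = ∫ y, G y ∂(Measure.pi fun _ : S => F) := by
    rw [← integral_restrict_infinitePi (μ := fun _ : Sym2 (V e) => F) (s := S)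
      hGm.aestronglyMeasurable]
    exact integral_congr_ae (Eventually.of_forall hST)
  have i2 : ∫ ω, T q' ω 0 x ^ 2 ∂(PM e F) = ∫ y, G y ^ 2 ∂(Measure.pi fun _ : S => F) := by
    rw [← integral_restrict_infinitePi (μ := fun _ : Sym2 (V e) => F) (s := S)
      (hGm.pow_const 2).aestronglyMeasurable]
    refine integral_congr_ae (Eventually.of_forall fun ω => ?_)
    simp only
    rw [hST ω]
  have i3 : ∫ y, D y ∂(Measure.pi fun _ : S => F) =
      ∫ ω, q'.b ^ 2 * (NN q c S ω + q'.b * n1 x / c) ∂(PM e F) := by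
    rw [← integral_restrict_infinitePi (μ := fun _ : Sym2 (V e) => F) (s := S)
      hDm.aestronglyMeasurable]
    refine integral_congr_ae (Eventually.of_forall fun ω => ?_)
    simp only [hD]
    rw [NN_congr q c S (ω := ω) (ω' := ext S (S.restrict ω)) fun s hs => ext_restrict S ω hs]
  have i4 : ∫ ω, q'.b ^ 2 * (NN q c S ω + q'.b * n1 x / c) ∂(PM e F) ≤
      q'.b ^ 2 * (2 + q'.b * n1 x / c) := by
    rw [integral_const_mul]
    refine mul_le_mul_of_nonneg_left ?_ (sq_nonneg _)
    have hint : Integrable (NN q c S) (PM e F) := by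
      refine Integrable.of_bound (NN_meas q c S).aestronglyMeasurable
        (∑ m ∈ Finset.range (S.card + 1), (m : ℝ)) (Eventually.of_forall fun ω => ?_)
      rw [Real.norm_eq_abs, abs_of_nonneg (NN_nonneg q c S ω)]
      exact NN_bd q c S ω
    rw [integral_add hint (integrable_const _)]
    have := NN_int q F c hP S
    simp only [integral_const, probReal_univ, one_smul]
    linarith
  rw [i1, i2]
  rw [hq.b] at i4
  refine le_trans ?_ i4
  rw [← hq.b, ← i3]
  refine efron_int F G hGm (q'.b * n1 x) (fun y => hTb _) D hDm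
    (q'.b ^ 2 * ((∑ m ∈ Finset.range (S.card + 1), (m : ℝ)) + q'.b * n1 x / c)) ?_ ?_
  · intro y
    have h1 := NN_nonneg q c S (ext S y)
    have h2 := NN_bd q c S (ext S y)
    have h3 : 0 ≤ q'.b * n1 x / c := by positivity
    rw [hD]
    simp only
    rw [abs_of_nonneg (by positivity)]
    refine mul_le_mul_of_nonneg_left ?_ (sq_nonneg _)
    linarith
  · intro y z
    have h1 := sum_incr hq hc (ext S y) (ext S z) x hL S hSm
    refine le_trans (le_of_eq ?_) h1
    rw [← Finset.sum_coe_sort S]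
    refine Finset.sum_congr rfl fun j _ => ?_
    have h2 : ext S z (j : Sym2 (V e)) = z j := by
      unfold ext
      rw [dif_pos j.2]
    have h3 : ∀ inst : DecidableEq S, ext S (@Function.update _ _ inst y j (z j)) =
        Function.update (ext S y) j (z j) := by
      intro inst
      have key : ∀ i1 i2 : DecidableEq S, @Function.update _ _ i1 y j (z j) =
          @Function.update _ _ i2 y j (z j) := by
        intro i1 i2
        rw [Subsingleton.elim i1 i2]
      exact (congrArg (ext S) (key _ _)).trans (ext_update S y j (z j))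
    simp only [hG]
    rw [h2, h3]

/-! ### The limit -/

/-- the weights are cut off from below at `η` -/
noncomputable def cut (q : Par) (η : ℝ) (h0 : 0 < η) (h : η ≤ q.b) : Par where
  a := max q.a η
  b := q.b
  ha := q.ha.trans (le_max_left _ _)
  hab := max_le q.hab h
  hb := q.hb

lemma cut_w (q : Par) (η : ℝ) (h0 : 0 < η) (h : η ≤ q.b) (t : ℝ) :
    (cut q η h0 h).w t = max η (q.w t) := by
  show max (max q.a η) (min q.b t) = max η (max q.a (min q.b t))
  rw [max_comm q.a η, max_assoc]

lemma cut_dom (q : Par) (η : ℝ) (h0 : 0 < η) (h : η ≤ q.b) : Dom q (cut q η h0 h) where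
  w t := by rw [cut_w]; exact le_max_right _ _
  b := rfl
  a := lt_of_lt_of_le h0 (le_max_right _ _)

lemma cost_cut_le (q : Par) (η : ℝ) (h0 : 0 < η) (h : η ≤ q.b) (ω : Om e) {x y : V e}
    (p : (lat e).Walk x y) : cost (cut q η h0 h) ω p ≤ cost q ω p + η * p.length := by
  induction p with
  | nil => simp [cost_nil]
  | @cons x y z hh p ih =>
    rw [cost_cons, cost_cons, SimpleGraph.Walk.length_cons, cut_w]
    have h1 : max η (q.w (ω s(x, y))) ≤ η + q.w (ω s(x, y)) :=
      max_le (by linarith [q.w_nonneg (ω s(x, y))]) (by linarith)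
    push_cast
    linarith

lemma T_cut_ge (q : Par) (η : ℝ) (h0 : 0 < η) (h : η ≤ q.b) (ω : Om e) (x y : V e) :
    T q ω x y ≤ T (cut q η h0 h) ω x y :=
  le_ciInf fun p => (T_le q ω p).trans (cost_dom (cut_dom q η h0 h).w ω p)

/-- the sequence of cut-offs -/
noncomputable def ck (q : Par) (k : ℕ) : Par :=
  cut q (q.b / (k + 1)) (div_pos q.hb (by positivity)) (div_le_self q.hb.le (by
    have : (0 : ℝ) ≤ k := Nat.cast_nonneg k
    linarith))

lemma T_ck (q : Par) (ω : Om e) (x y : V e) :
    Tendsto (fun k => T (ck q k) ω x y) atTop (𝓝 (T q ω x y)) := by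
  rw [Metric.tendsto_atTop]
  intro ε hε
  obtain ⟨p, hp⟩ := exists_near q ω x y (half_pos hε)
  have hlim : Tendsto (fun k : ℕ => q.b / ((k : ℝ) + 1) * p.length) atTop (𝓝 (0 * p.length)) := by
    refine Tendsto.mul_const _ ?_
    exact tendsto_const_nhds.div_atTop
      (tendsto_atTop_add_const_right _ _ tendsto_natCast_atTop_atTop)
  rw [zero_mul] at hlim
  obtain ⟨N, hN⟩ := eventually_atTop.1 (hlim.eventually (gt_mem_nhds (half_pos hε)))
  refine ⟨N, fun k hk => ?_⟩
  have h1 : T q ω x y ≤ T (ck q k) ω x y := T_cut_ge q _ _ _ ω x y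
  have h2 := (T_le (ck q k) ω p).trans (cost_cut_le q _ _ _ ω p)
  have h3 := hN k hk
  rw [Real.dist_eq, abs_of_nonneg (sub_nonneg.2 h1)]
  linarith

/-- the variance bound -/
theorem varB (e : ℕ) (q : Par) (F : Measure ℝ) [IsProbabilityMeasure F]
    (h : F {t | q.w t ≤ 0} = 0) : VarB e q F := by
  obtain ⟨c, hc, hP⟩ := exists_cheap e q F h
  have hb := q.hb
  refine ⟨q.b ^ 2 * (2 + q.b / c), by positivity, fun x => ?_⟩
  have hn0 : (0 : ℝ) ≤ n1 x := by exact_mod_cast n1_nonneg x
  have hTb : ∀ (q' : Par), q'.b = q.b → ∀ ω : Om e, |T q' ω 0 x| ≤ q.b * n1 x := by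
    intro q' hq' ω
    rw [abs_of_nonneg (T_nonneg q' ω 0 x), ← hq']
    exact T_le_b0 q' ω x
  -- the limit of the variances
  have l1 : Tendsto (fun k => ∫ ω, T (ck q k) ω 0 x ∂(PM e F)) atTop
      (𝓝 (∫ ω, T q ω 0 x ∂(PM e F))) := by
    refine tendsto_integral_of_dominated_convergence (fun _ => q.b * n1 x) ?_
      (integrable_const _) ?_ ?_
    · exact fun k => (measurable_T (ck q k) 0 x).aestronglyMeasurable
    · exact fun k => Eventually.of_forall fun ω => hTb (ck q k) rfl ω
    · exact Eventually.of_forall fun ω => T_ck q ω 0 x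
  have l2 : Tendsto (fun k => ∫ ω, T (ck q k) ω 0 x ^ 2 ∂(PM e F)) atTop
      (𝓝 (∫ ω, T q ω 0 x ^ 2 ∂(PM e F))) := by
    refine tendsto_integral_of_dominated_convergence (fun _ => (q.b * n1 x) ^ 2) ?_
      (integrable_const _) ?_ ?_
    · exact fun k => ((measurable_T (ck q k) 0 x).pow_const 2).aestronglyMeasurable
    · intro k
      refine Eventually.of_forall fun ω => ?_
      rw [Real.norm_eq_abs, abs_pow]
      exact pow_le_pow_left₀ (abs_nonneg _) (hTb (ck q k) rfl ω) 2
    · exact Eventually.of_forall fun ω => (T_ck q ω 0 x).pow 2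
  have h1 : ∫ ω, T q ω 0 x ^ 2 ∂(PM e F) - (∫ ω, T q ω 0 x ∂(PM e F)) ^ 2 ≤
      q.b ^ 2 * (2 + q.b * n1 x / c) :=
    le_of_tendsto (l2.sub (l1.pow 2)) (Eventually.of_forall fun k =>
      var_dom (cut_dom q _ _ _) F hc hP x)
  have hmem : MemLp (fun ω : Om e => T q ω 0 x) 2 (PM e F) :=
    MemLp.of_bound (measurable_T q 0 x).aestronglyMeasurable (q.b * n1 x)
      (Eventually.of_forall fun ω => hTb q rfl ω)
  have h2 : ∫ ω, (T q ω 0 x - g q F x) ^ 2 ∂(PM e F) =
      ∫ ω, T q ω 0 x ^ 2 ∂(PM e F) - (∫ ω, T q ω 0 x ∂(PM e F)) ^ 2 := by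
    have h3 := variance_eq_integral (μ := PM e F) (measurable_T (e := e) q 0 x).aemeasurable
    have h4 := variance_eq_sub hmem
    rw [h4] at h3
    exact h3.symm
  by_cases hx : x = 0
  · subst hx
    have h0 : ∀ ω : Om e, T q ω 0 0 = 0 := by
      intro ω
      have := T_le_b0 q ω (0 : V e)
      rw [n1_zero] at this
      have h5 := T_nonneg q ω (0 : V e) 0
      push_cast at this
      linarith
    have hg : g q F (0 : V e) = 0 := by
      unfold g
      simp only [h0, integral_zero]
    simp only [h0, hg, n1_zero, sub_zero]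
    norm_num
  · have hx1 : (1 : ℝ) ≤ n1 x := by
      have h5 : n1 x ≠ 0 := by
        intro h6
        refine hx (eq_of_n1 ?_)
        rwa [sub_zero]
      have h6 := n1_nonneg x
      have h7 : 1 ≤ n1 x := by omega
      exact_mod_cast h7
    rw [h2]
    refine h1.trans ?_
    have e1 : q.b * (n1 x : ℝ) / c = q.b / c * n1 x := by ring
    rw [e1]
    have h6 : 0 ≤ q.b / c := by positivity
    have h7 : 2 + q.b / c * (n1 x : ℝ) ≤ (2 + q.b / c) * n1 x := by nlinarith
    calc q.b ^ 2 * (2 + q.b / c * n1 x) ≤ q.b ^ 2 * ((2 + q.b / c) * n1 x) :=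
          mul_le_mul_of_nonneg_left h7 (sq_nonneg _)
      _ = q.b ^ 2 * (2 + q.b / c) * n1 x := by ring

/-- MODULE LAW -/
theorem law : LawT := fun e q F _ h => ⟨varB e q F h, farB e q F h⟩

end Pool.Agent.J6H42.NC
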