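import Pool.Agent.J6H99.NC.Stm2

/-!
# No corners of the limit shape: from the canonical model to any i.i.d. family (module TRANSFER)
-/

set_option autoImplicit false

open MeasureTheory ProbabilityTheory Filter Topology
open scoped ENNReal

namespace Pool.Agent.J6H42.NC

open Pool.Agent.J6H99.NC

section

variable {e : ℕ} {F : Measure ℝ} [IsProbabilityMeasure F] {Ω : Type} [mΩ : MeasurableSpace Ω]
  {P : Measure Ω} [IsProbabilityMeasure P] (t : Sym2 (V e) → Ω → ℝ)

open Classical in
/-- the given weights on the lattice edges, independent weights on the other pairs -/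
noncomputable def glue (z : Ω × Om e) : Om e := fun s => if IsEdge s then t s z.1 else z.2 s

theorem glue_meas (ht : ∀ s, Measurable (t s)) : Measurable (glue t) := by
  refine measurable_pi_iff.2 fun s => ?_
  unfold glue
  by_cases hs : IsEdge s
  · simp only [hs, if_true]
    exact (ht s).comp measurable_fst
  · simp only [hs, if_false]
    exact (measurable_pi_apply s).comp measurable_snd

omit [IsProbabilityMeasure P] in
theorem glue_map (ht : ∀ s, Measurable (t s))
    (hi : iIndepFun (fun s : {s : Sym2 (V e) // IsEdge s} => t s.1) P)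
    (hF : ∀ s : Sym2 (V e), IsEdge s → Measure.map (t s) P = F) :
    Measure.map (glue t) (P.prod (PM e F)) = PM e F := by
  classical
  unfold PM
  refine Measure.eq_infinitePi _ fun s A hA => ?_
  rw [Measure.map_apply (glue_meas t ht) (.pi s.countable_toSet fun _ _ => hA _)]
  set s1 : Finset (Sym2 (V e)) := s.filter IsEdge with hs1
  set s2 : Finset (Sym2 (V e)) := s.filter (fun i => ¬ IsEdge i) with hs2
  have hpre : glue t ⁻¹' ((s : Set (Sym2 (V e))).pi A) =
      (⋂ i ∈ s1.subtype IsEdge, (t i.1) ⁻¹' A i.1) ×ˢ ((s2 : Set (Sym2 (V e))).pi A) := by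
    ext z
    simp only [Set.mem_preimage, Set.mem_pi, Finset.mem_coe, Set.mem_prod, Set.mem_iInter,
      Finset.mem_subtype, hs1, hs2, Finset.mem_filter, glue]
    constructor
    · intro h
      refine ⟨fun i hi' => ?_, fun i hi' => ?_⟩
      · have := h i.1 hi'.1
        rwa [if_pos hi'.2] at this
      · have := h i hi'.1
        rwa [if_neg hi'.2] at this
    · rintro ⟨h1, h2⟩ i hi'
      by_cases hE : IsEdge i
      · rw [if_pos hE]
        exact h1 ⟨i, hE⟩ ⟨hi', hE⟩
      · rw [if_neg hE]
        exact h2 i ⟨hi', hE⟩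
  rw [hpre, Measure.prod_prod, Measure.infinitePi_pi _ (fun i _ => hA i)]
  have h1 : P (⋂ i ∈ s1.subtype IsEdge, (t i.1) ⁻¹' A i.1) = ∏ i ∈ s1, F (A i) := by
    have h2 := hi.measure_inter_preimage_eq_mul (s1.subtype IsEdge) (sets := fun i => A i.1)
      (fun i _ => hA i.1)
    rw [h2]
    have h3 : ∀ i ∈ s1.subtype IsEdge, P ((t i.1) ⁻¹' A i.1) = F (A i.1) := by
      intro i _
      rw [← hF i.1 i.2, Measure.map_apply (ht i.1) (hA i.1)]
    rw [Finset.prod_congr rfl h3, Finset.prod_subtype_eq_prod_filter (s := s1)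
      (f := fun i => F (A i)), hs1, Finset.filter_filter]
    simp only [and_self]
  rw [h1, hs1, hs2, Finset.prod_filter_mul_prod_filter_not]

end

/-- MODULE TRANSFER -/
theorem transfer : TransferT := by
  intro e F _ Ω mΩ P hP t ht hi hF Q hQ h
  have h1 : ∀ᵐ ω ∂(Measure.map (glue t) (P.prod (PM e F))), Q ω := by
    rw [glue_map t ht hi hF]
    exact h
  have h2 : ∀ᵐ z ∂(P.prod (PM e F)), Q (glue t z) :=
    ae_of_ae_map (glue_meas t ht).aemeasurable h1
  have h3 : ∀ᵐ z ∂(P.prod (PM e F)), Q (fun s => t s z.1) := by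
    filter_upwards [h2] with z hz
    refine (hQ _ _ fun s hs => ?_).1 hz
    simp only [glue, if_pos hs]
  have h4 := Measure.ae_ae_of_ae_prod h3
  filter_upwards [h4] with ω hω
  exact hω.exists.choose_spec

end Pool.Agent.J6H42.NC
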