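import Pool.Agent.H4R2.AE.Conc

/-!
# The Efron-Stein inequality with positive parts and an integrable bound
-/

set_option autoImplicit false

open MeasureTheory ProbabilityTheory Filter Topology
open scoped ENNReal

namespace Pool.Agent.J6H42.NC

open Pool.Agent.H4R2.AE.Conc in
open Classical in
/-- the Efron-Stein inequality with positive parts -/
theorem efron_int {ι : Type} [Fintype ι] (μ : Measure ℝ) [IsProbabilityMeasure μ]
    (G : (ι → ℝ) → ℝ) (hG : Measurable G) (B : ℝ) (hB : ∀ ω, |G ω| ≤ B) (D : (ι → ℝ) → ℝ)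
    (hDm : Measurable D) (BD : ℝ) (hDb : ∀ ω, |D ω| ≤ BD)
    (hD : ∀ ω τ : ι → ℝ, ∑ j, (max 0 (G (Function.update ω j (τ j)) - G ω)) ^ 2 ≤ D ω) :
    ∫ ω, G ω ^ 2 ∂(Measure.pi fun _ : ι => μ) - (∫ ω, G ω ∂(Measure.pi fun _ : ι => μ)) ^ 2 ≤
      ∫ ω, D ω ∂(Measure.pi fun _ : ι => μ) := by
  have h0 := efron (μ := μ) G hG B hB
  refine h0.trans ?_
  have gm : ∀ S : Finset ι, Measurable fun θ => G (sel S θ) := fun S => hG.comp (meas_sel S)
  have pm : ∀ S T : Finset ι, Measurable fun θ => (max 0 (G (sel S θ) - G (sel T θ))) ^ 2 :=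
    fun S T => (measurable_const.max ((gm S).sub (gm T))).pow_const 2
  have ip : ∀ S T : Finset ι, Integrable (fun θ => (max 0 (G (sel S θ) - G (sel T θ))) ^ 2)
      (QQ ι μ) := by
    intro S T
    refine int_bd (pm S T) (C := (2 * B) ^ 2) fun θ => ?_
    rw [abs_of_nonneg (sq_nonneg _)]
    refine pow_le_pow_left₀ (le_max_left _ _) ?_ 2
    have h1 := abs_le.1 (hB (sel S θ))
    have h2 := abs_le.1 (hB (sel T θ))
    have h3 := (abs_nonneg _).trans (hB (sel T θ))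
    exact max_le (by linarith) (by linarith)
  have e1 : ∀ j : ι, Inf2 μ G j =
      2 * ∫ θ, (max 0 (G (sel {j} θ) - G (sel ∅ θ))) ^ 2 ∂(QQ ι μ) := by
    intro j
    have hsym : ∫ θ, (max 0 (G (sel ∅ θ) - G (sel {j} θ))) ^ 2 ∂(QQ ι μ) =
        ∫ θ, (max 0 (G (sel {j} θ) - G (sel ∅ θ))) ^ 2 ∂(QQ ι μ) := by
      rw [← int_mp (mp_sw μ {j}) (pm ∅ {j})]
      refine integral_congr_ae (Eventually.of_forall fun θ => ?_)
      have h1 : sel {j} (sw {j} θ) = sel ∅ θ := by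
        funext i; by_cases hi : i = j <;> simp [sel, sw, hi]
      simp only [sel_empty_sw, h1]
    have hsplit : Inf2 μ G j = ∫ θ, (max 0 (G (sel ∅ θ) - G (sel {j} θ))) ^ 2 ∂(QQ ι μ) +
        ∫ θ, (max 0 (G (sel {j} θ) - G (sel ∅ θ))) ^ 2 ∂(QQ ι μ) := by
      unfold Inf2
      rw [← integral_add (ip _ _) (ip _ _)]
      refine integral_congr_ae (Eventually.of_forall fun θ => ?_)
      simp only
      rcases le_total (G (sel ∅ θ)) (G (sel {j} θ)) with h | h
      · rw [max_eq_left (sub_nonpos.2 h), max_eq_right (sub_nonneg.2 h)]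
        ring
      · rw [max_eq_right (sub_nonneg.2 h), max_eq_left (sub_nonpos.2 h)]
        ring
    rw [hsplit, hsym]
    ring
  have e2 : (1 / 2 : ℝ) * ∑ j, Inf2 μ G j =
      ∫ θ, ∑ j, (max 0 (G (sel {j} θ) - G (sel ∅ θ))) ^ 2 ∂(QQ ι μ) := by
    rw [integral_finsetSum _ fun j _ => ip _ _, Finset.mul_sum]
    refine Finset.sum_congr rfl fun j _ => ?_
    rw [e1]
    ring
  rw [e2]
  calc ∫ θ, ∑ j, (max 0 (G (sel {j} θ) - G (sel ∅ θ))) ^ 2 ∂(QQ ι μ)
      ≤ ∫ θ, D (sel ∅ θ) ∂(QQ ι μ) := by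
        refine integral_mono (integrable_finsetSum _ fun j _ => ip _ _)
          (int_bd (hDm.comp (meas_sel ∅)) fun θ => hDb _) ?_
        intro θ
        refine le_trans (le_of_eq ?_) (hD (sel ∅ θ) (sel Finset.univ θ))
        refine Finset.sum_congr rfl fun j _ => ?_
        rw [sel_single]
    _ = ∫ ω, D ω ∂(Measure.pi fun _ : ι => μ) := int_mp (mp_sel μ ∅) hDm

end Pool.Agent.J6H42.NC
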