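import Pool.Agent.J6H42.NC.Cheap
import Pool.Agent.J6H42.NC.Efron

/-!
# First-passage percolation with positive bounded weights: the variance is at most linear
-/

set_option autoImplicit false
set_option linter.unusedVariables false

open MeasureTheory ProbabilityTheory Filter Topology
open scoped ENNReal

namespace Pool.Agent.J6H42.NC

open Pool.Agent.J6H99.NC

variable {e : ℕ}

/-- finite balls -/
lemma ball_finite (L : ℤ) : {v : V e | n1 v ≤ L}.Finite := by
  refine (Set.Finite.pi' (fun _ : Fin (e + 2) => Set.finite_Icc (-L) L)).subset ?_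
  intro v hv i
  have h1 := (coord_le_n1 v i).trans hv
  exact abs_le.1 h1

lemma edges_finite (L : ℤ) : (EIn {v : V e | n1 v ≤ L}).Finite := by
  refine (((ball_finite L).prod (ball_finite L)).image
    (fun p : V e × V e => s(p.1, p.2))).subset ?_
  intro s hs
  induction s with
  | _ x y => exact ⟨(x, y), ⟨hs x (Sym2.mem_mk_left x y), hs y (Sym2.mem_mk_right x y)⟩, rfl⟩

lemma cost_congr (q : Par) {ω ω' : Om e} {x y : V e} (p : (lat e).Walk x y)
    (h : ∀ s ∈ p.edges, ω s = ω' s) : cost q ω p = cost q ω' p := by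
  unfold cost
  congr 1
  refine List.map_congr_left fun s hs => ?_
  rw [h s hs]

lemma T_le_b0 (q : Par) (ω : Om e) (x : V e) : T q ω 0 x ≤ q.b * n1 x := by
  have := T_le_n1 q ω 0 x
  rwa [sub_zero] at this

/-- near optimal walks stay in the ball -/
lemma near_in_ball (q : Par) (ha : 0 < q.a) {ω : Om e} (x : V e) {L : ℤ}
    (hL : q.b * n1 x + q.a ≤ q.a * L) {δ : ℝ} (p : (lat e).Walk 0 x)
    (hp : cost q ω p < T q ω 0 x + min δ q.a) : Uses p (EIn {v : V e | n1 v ≤ L}) := by
  have h1 := cost_ge q ω p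
  have h2 := T_le_b0 q ω x
  have h3 : q.a * (p.length : ℝ) < q.a * L :=
    calc q.a * (p.length : ℝ) ≤ cost q ω p := h1
      _ < T q ω 0 x + min δ q.a := hp
      _ ≤ q.b * n1 x + q.a := add_le_add h2 (min_le_right _ _)
      _ ≤ q.a * L := hL
  have h4 : (p.length : ℤ) ≤ L := by
    have := lt_of_mul_lt_mul_left h3 ha.le
    exact_mod_cast this.le
  refine edges_EIn fun v hv => ?_
  have := n1_le_of_mem p hv
  rw [sub_zero] at this
  exact this.trans h4

/-- `T(0, x)` depends on finitely many weights -/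
lemma T_congr (q : Par) (ha : 0 < q.a) {ω ω' : Om e} (x : V e) {L : ℤ}
    (hL : q.b * n1 x + q.a ≤ q.a * L)
    (h : ∀ s ∈ EIn {v : V e | n1 v ≤ L}, ω s = ω' s) : T q ω' 0 x ≤ T q ω 0 x := by
  refine le_of_forall_pos_lt_add fun δ hδ => ?_
  obtain ⟨p, hp⟩ := exists_near q ω 0 x (lt_min hδ ha)
  have h5 := near_in_ball q ha x hL p hp
  calc T q ω' 0 x ≤ cost q ω' p := T_le q ω' p
    _ = cost q ω p := (cost_congr q p fun s hs => h s (h5 s hs)).symm
    _ < T q ω 0 x + min δ q.a := hp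
    _ ≤ T q ω 0 x + δ := by linarith [min_le_left δ q.a]

/-- near optimal paths -/
lemma exists_near_path (q : Par) (ω : Om e) (x y : V e) {δ : ℝ} (hδ : 0 < δ) :
    ∃ p : (lat e).Walk x y, p.IsPath ∧ cost q ω p < T q ω x y + δ := by
  classical
  obtain ⟨p, hp⟩ := exists_near q ω x y hδ
  exact ⟨p.bypass, SimpleGraph.Walk.bypass_isPath p, lt_of_le_of_lt (cost_bypass_le q ω p) hp⟩

open Classical in
lemma cost_update (q : Par) (ω : Om e) (s : Sym2 (V e)) (t : ℝ) {x y : V e}
    (p : (lat e).Walk x y) (hp : p.edges.Nodup) :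
    cost q (Function.update ω s t) p ≤ cost q ω p + q.b * (if s ∈ p.edges then 1 else 0) := by
  unfold cost
  generalize p.edges = L at hp
  induction L with
  | nil => simp
  | cons r L ih =>
    rw [List.nodup_cons] at hp
    have ih := ih hp.2
    simp only [List.map_cons, List.sum_cons]
    by_cases hr : s = r
    · subst hr
      have e1 : (L.map fun r => q.w (Function.update ω s t r)) = L.map fun r => q.w (ω r) := by
        refine List.map_congr_left fun r hr => ?_
        rw [Function.update_of_ne]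
        rintro rfl
        exact hp.1 hr
      rw [e1, Function.update_self, if_pos (List.mem_cons_self ..)]
      have h1 := q.w_le_b t
      have h2 := q.w_nonneg (ω s)
      linarith
    · rw [Function.update_of_ne (Ne.symm hr)]
      have e2 : (s ∈ r :: L) ↔ s ∈ L := by
        rw [List.mem_cons]
        exact or_iff_right hr
      simp only [e2]
      linarith

/-- some path of length `m` from `0` with edges in `S` has cost at most `c m` -/
def CheapS (q : Par) (c : ℝ) (S : Finset (Sym2 (V e))) (m : ℕ) : Set (Om e) :=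
  {ω | ∃ y : V e, ∃ p : (lat e).Walk 0 y, p.IsPath ∧ p.length = m ∧ Uses p (S : Set (Sym2 (V e))) ∧
    cost q ω p ≤ c * m}

lemma CheapS_sub (q : Par) (c : ℝ) (S : Finset (Sym2 (V e))) (m : ℕ) :
    CheapS q c S m ⊆ Cheap e q c m := fun _ ⟨y, p, h1, h2, _, h4⟩ => ⟨y, p, h1, h2, h4⟩

lemma CheapS_meas (q : Par) (c : ℝ) (S : Finset (Sym2 (V e))) (m : ℕ) :
    MeasurableSet (CheapS q c S m) := by
  have h : CheapS q c S m = ⋃ y : V e, ⋃ p : (lat e).Walk 0 y,
      {ω | (p.IsPath ∧ p.length = m ∧ Uses p (S : Set (Sym2 (V e)))) ∧ cost q ω p ≤ c * m} := by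
    ext ω
    simp only [Set.mem_iUnion]
    constructor
    · rintro ⟨y, p, h1, h2, h3, h4⟩
      exact ⟨y, p, ⟨h1, h2, h3⟩, h4⟩
    · rintro ⟨y, p, ⟨h1, h2, h3⟩, h4⟩
      exact ⟨y, p, h1, h2, h3, h4⟩
  rw [h]
  refine MeasurableSet.iUnion fun y => MeasurableSet.iUnion fun p => ?_
  by_cases hp : p.IsPath ∧ p.length = m ∧ Uses p (S : Set (Sym2 (V e)))
  · have : {ω : Om e | (p.IsPath ∧ p.length = m ∧ Uses p (S : Set (Sym2 (V e)))) ∧
        cost q ω p ≤ c * m} = (fun ω : Om e => cost q ω p) ⁻¹' Set.Iic (c * m) := by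
      ext ω; simp [hp]
    rw [this]
    exact measurable_cost q p measurableSet_Iic
  · have : {ω : Om e | (p.IsPath ∧ p.length = m ∧ Uses p (S : Set (Sym2 (V e)))) ∧
        cost q ω p ≤ c * m} = ∅ := by
      ext ω; simp [hp]
    rw [this]
    exact MeasurableSet.empty

lemma CheapS_congr (q : Par) (c : ℝ) (S : Finset (Sym2 (V e))) (m : ℕ) {ω ω' : Om e}
    (h : ∀ s ∈ S, ω s = ω' s) : ω ∈ CheapS q c S m ↔ ω' ∈ CheapS q c S m := by
  constructor
  · rintro ⟨y, p, h1, h2, h3, h4⟩
    exact ⟨y, p, h1, h2, h3, by rwa [← cost_congr q p fun s hs => h s (h3 s hs)]⟩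
  · rintro ⟨y, p, h1, h2, h3, h4⟩
    exact ⟨y, p, h1, h2, h3, by rwa [cost_congr q p fun s hs => h s (h3 s hs)]⟩

/-- a bound for the lengths of the cheap paths in `S` -/
noncomputable def NN (q : Par) (c : ℝ) (S : Finset (Sym2 (V e))) (ω : Om e) : ℝ :=
  ∑ m ∈ Finset.range (S.card + 1), (m : ℝ) * (CheapS q c S m).indicator (fun _ => (1 : ℝ)) ω

lemma NN_meas (q : Par) (c : ℝ) (S : Finset (Sym2 (V e))) : Measurable (NN q c S) :=
  Finset.measurable_sum _ fun m _ =>
    (measurable_const.indicator (CheapS_meas q c S m)).const_mul _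

lemma NN_nonneg (q : Par) (c : ℝ) (S : Finset (Sym2 (V e))) (ω : Om e) : 0 ≤ NN q c S ω :=
  Finset.sum_nonneg fun m _ => mul_nonneg (Nat.cast_nonneg _)
    (Set.indicator_nonneg (fun _ _ => zero_le_one) _)

lemma NN_bd (q : Par) (c : ℝ) (S : Finset (Sym2 (V e))) (ω : Om e) :
    NN q c S ω ≤ ∑ m ∈ Finset.range (S.card + 1), (m : ℝ) := by
  refine Finset.sum_le_sum fun m _ => ?_
  have h : (CheapS q c S m).indicator (fun _ => (1 : ℝ)) ω ≤ 1 :=
    Set.indicator_le_self' (fun _ _ => zero_le_one) _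
  calc (m : ℝ) * (CheapS q c S m).indicator (fun _ => (1 : ℝ)) ω ≤ m * 1 :=
        mul_le_mul_of_nonneg_left h (Nat.cast_nonneg _)
    _ = m := mul_one _

lemma NN_congr (q : Par) (c : ℝ) (S : Finset (Sym2 (V e))) {ω ω' : Om e}
    (h : ∀ s ∈ S, ω s = ω' s) : NN q c S ω = NN q c S ω' := by
  classical
  refine Finset.sum_congr rfl fun m _ => ?_
  congr 1
  simp only [Set.indicator_apply]
  rw [if_congr (CheapS_congr q c S m h) rfl rfl]

lemma le_NN (q : Par) (c : ℝ) (S : Finset (Sym2 (V e))) {ω : Om e} {m : ℕ}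
    (h : ω ∈ CheapS q c S m) (hm : m ≤ S.card) : (m : ℝ) ≤ NN q c S ω := by
  have h1 : (m : ℝ) * (CheapS q c S m).indicator (fun _ => (1 : ℝ)) ω ≤ NN q c S ω := by
    unfold NN
    exact Finset.single_le_sum (f := fun m : ℕ =>
      (m : ℝ) * (CheapS q c S m).indicator (fun _ => (1 : ℝ)) ω)
      (fun m _ => mul_nonneg (Nat.cast_nonneg _) (Set.indicator_nonneg (fun _ _ => zero_le_one) _))
      (Finset.mem_range.2 (Nat.lt_succ_of_le hm))
  rwa [Set.indicator_of_mem h, mul_one] at h1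

lemma sum_half (n : ℕ) : ∑ m ∈ Finset.range n, (m : ℝ) * (1 / 2) ^ m =
    2 - 2 * (n + 1) * (1 / 2) ^ n := by
  induction n with
  | zero => simp
  | succ n ih => rw [Finset.sum_range_succ, ih, pow_succ]; push_cast; ring

lemma NN_int (q : Par) (F : Measure ℝ) [IsProbabilityMeasure F] (c : ℝ)
    (hP : ∀ m : ℕ, PM e F (Cheap e q c m) ≤ ENNReal.ofReal ((1 / 2) ^ m))
    (S : Finset (Sym2 (V e))) : ∫ ω, NN q c S ω ∂(PM e F) ≤ 2 := by
  unfold NN
  rw [integral_finsetSum _ fun m _ =>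
    ((integrable_const (1 : ℝ)).indicator (CheapS_meas q c S m)).const_mul _]
  have h : ∀ m ∈ Finset.range (S.card + 1),
      ∫ ω, (m : ℝ) * (CheapS q c S m).indicator (fun _ => (1 : ℝ)) ω ∂(PM e F) ≤
        m * (1 / 2) ^ m := by
    intro m _
    rw [integral_const_mul, integral_indicator_const _ (CheapS_meas q c S m), smul_eq_mul, mul_one]
    refine mul_le_mul_of_nonneg_left ?_ (Nat.cast_nonneg _)
    have h1 := (measure_mono (CheapS_sub q c S m)).trans (hP m)
    exact ENNReal.toReal_le_of_le_ofReal (by positivity) h1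
  refine (Finset.sum_le_sum h).trans ?_
  rw [sum_half]
  have : 0 ≤ 2 * (((S.card + 1 : ℕ) : ℝ) + 1) * (1 / 2 : ℝ) ^ (S.card + 1) := by positivity
  linarith

end Pool.Agent.J6H42.NC
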